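import Pool.Agent.H2.KM.Targets

/-!
# Board kim_modules, row SPJ
-/

set_option autoImplicit false

open Matrix Pool.Agent.H2.NL Pool.Agent.H2.KM Pool.Agent.H64.CC

namespace Pool.Agent.H60.KM

section

variable {K : Type} [Field K] {I J M : Type} [Fintype J]

/-- words of length `n + 1` -/
def vcons (J : Type) (n : ℕ) : J × List.Vector J n ≃ List.Vector J (n + 1) where
  toFun p := p.1 ::ᵥ p.2
  invFun v := (v.head, v.tail)
  left_inv p := by simp
  right_inv v := by simp

lemma vsum (n : ℕ) (F : List J → K) :
    ∑ v : List.Vector J (n + 1), F v.1 = ∑ b : J, ∑ v : List.Vector J n, F (b :: v.1) := by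
  rw [← (vcons J n).sum_comp, Fintype.sum_prod_type]
  refine Finset.sum_congr rfl fun b _ => Finset.sum_congr rfl fun v _ => ?_
  rfl

lemma vsum_zero (F : List J → K) : ∑ v : List.Vector J 0, F v.1 = F [] := by
  haveI : Subsingleton (List.Vector J 0) := List.Vector.zero_subsingleton
  rw [Fintype.sum_subsingleton _ (List.Vector.nil : List.Vector J 0)]
  rfl

omit [Fintype J] in
lemma sum_exch {α : Type} (s : Finset J) (L : List α) (f : J → α → K) :
    ∑ b ∈ s, (L.map (f b)).sum = (L.map fun x => ∑ b ∈ s, f b x).sum := by
  induction L with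
  | nil => simp
  | cons x L ih =>
    simp only [List.map_cons, List.sum_cons, Finset.sum_add_distrib, ih]

lemma pf_vsum (j : Matrix I J K) (n : ℕ) : ∀ (u : List I) (t : List J → K), u.length = n →
    ∑ v : List.Vector J n, (List.zipWith (fun a b => j a b) u v.1).prod * t v.1 = pf j t u := by
  induction n with
  | zero =>
    intro u t hu
    rw [List.length_eq_zero_iff] at hu
    subst hu
    rw [vsum_zero (fun v => (List.zipWith (fun a b => j a b) [] v).prod * t v)]
    simp [pf]
  | succ n ih =>
    intro u t hu
    match u, hu with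
    | a :: u, hu =>
      have hu' : u.length = n := by simpa using hu
      rw [vsum n (fun v => (List.zipWith (fun a b => j a b) (a :: u) v).prod * t v)]
      change _ = ∑ b, j a b * pf j (fun l => t (b :: l)) u
      refine Finset.sum_congr rfl fun b _ => ?_
      rw [← ih u (fun l => t (b :: l)) hu', Finset.mul_sum]
      refine Finset.sum_congr rfl fun v _ => ?_
      simp only [List.zipWith_cons_cons, List.prod_cons]
      ring

lemma pf_list (j : Matrix I J K) (u : List I) {α : Type} (L : List α) (c : α → K)
    (t : α → List J → K) :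
    pf j (fun l => (L.map fun x => c x * t x l).sum) u = (L.map fun x => c x * pf j (t x) u).sum := by
  induction L with
  | nil =>
    simp only [List.map_nil, List.sum_nil]
    have h := pf_smul j 0 u (0 : List J → K)
    rw [zero_smul, zero_mul] at h
    exact h
  | cons x L ih =>
    simp only [List.map_cons, List.sum_cons]
    rw [← ih]
    have h1 := pf_add j u (c x • t x) (fun l => (L.map fun x => c x * t x l).sum)
    rw [pf_smul] at h1
    exact h1

lemma pf_zero (j : Matrix I J K) (u : List I) : pf j (fun _ => (0 : K)) u = 0 := by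
  have h := pf_smul j 0 u (0 : List J → K)
  rw [zero_smul, zero_mul] at h
  exact h

/-- part one -/
lemma spj_one (o : M → Bool) (j : Matrix I J K) (g : Matrix J M K) (u : List I) :
    ∀ w : List M, pf j (fun v => sp o g v w) u = sp o (j * g) u w := by
  induction u with
  | nil =>
    intro w
    cases w with
    | nil => simp [pf, sp]
    | cons c w => simp [pf, sp]
  | cons a u ih =>
    intro w
    change ∑ b, j a b * pf j (fun l => sp o g (b :: l) w) u =
      ((sel K o w).map fun x => x.1 * (j * g) a x.2.1 * sp o (j * g) u x.2.2).sum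
    have h1 : ∀ b, pf j (fun l => sp o g (b :: l) w) u =
        ((sel K o w).map fun x => x.1 * g b x.2.1 * sp o (j * g) u x.2.2).sum := by
      intro b
      have h2 := pf_list j u (sel K o w) (fun x => x.1 * g b x.2.1) (fun x l => sp o g l x.2.2)
      simp only [ih] at h2
      exact h2
    simp only [h1, ← List.sum_map_mul_left]
    rw [sum_exch]
    congr 1
    refine List.map_congr_left fun x _ => ?_
    rw [Matrix.mul_apply, Finset.mul_sum, Finset.sum_mul]
    refine Finset.sum_congr rfl fun b _ => ?_
    ring

/-- selections -/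
lemma spj_sel (o' : J → Bool) (o : M → Bool) (i : Matrix J M K)
    (hi : ∀ b a, i b a ≠ 0 → o' b = o a) (w : List M) : ∀ ψ : J → List J → K,
    pf iᵀ (fun v => ((sel K o' v).map fun x => x.1 * ψ x.2.1 x.2.2).sum) w =
      ((sel K o w).map fun x => x.1 * ∑ b, i b x.2.1 * pf iᵀ (ψ b) x.2.2).sum := by
  induction w with
  | nil => intro ψ; simp [pf, sel]
  | cons c w ih =>
    intro ψ
    change ∑ d, i d c * pf iᵀ (fun l =>
      ((sel K o' (d :: l)).map fun x => x.1 * ψ x.2.1 x.2.2).sum) w = _
    have h1 : ∀ d, pf iᵀ (fun l =>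
        ((sel K o' (d :: l)).map fun x => x.1 * ψ x.2.1 x.2.2).sum) w = pf iᵀ (ψ d) w +
        ((sel K o w).map fun x => x.1 * ∑ b, i b x.2.1 *
          (ks K (o' d) (o' b) * pf iᵀ (fun l => ψ b (d :: l)) x.2.2)).sum := by
      intro d
      have h2 : (fun l => ((sel K o' (d :: l)).map fun x => x.1 * ψ x.2.1 x.2.2).sum) =
          ψ d + fun l => ((sel K o' l).map fun x => x.1 *
            (fun a r => ks K (o' d) (o' a) * ψ a (d :: r)) x.2.1 x.2.2).sum := by
        funext l
        simp only [sel, List.map_cons, List.sum_cons, List.map_map, one_mul, Pi.add_apply]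
        congr 1
        congr 1
        refine List.map_congr_left fun x _ => ?_
        simp only [Function.comp_apply]
        ring
      rw [h2, pf_add]
      refine congrArg₂ (· + ·) rfl
        ((ih (fun a r => ks K (o' d) (o' a) * ψ a (d :: r))).trans ?_)
      congr 1
      refine List.map_congr_left fun x _ => ?_
      congr 1
      refine Finset.sum_congr rfl fun b _ => ?_
      congr 1
      exact pf_smul iᵀ (ks K (o' d) (o' b)) x.2.2 (fun l => ψ b (d :: l))
    simp only [h1, mul_add, Finset.sum_add_distrib]
    rw [show sel K o (c :: w) = (1, c, w) :: (sel K o w).map fun x =>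
      (ks K (o c) (o x.2.1) * x.1, x.2.1, c :: x.2.2) from rfl]
    simp only [List.map_cons, List.sum_cons, List.map_map, one_mul]
    congr 1
    simp only [← List.sum_map_mul_left]
    rw [sum_exch]
    congr 1
    refine List.map_congr_left fun x _ => ?_
    simp only [Function.comp_apply]
    have h3 : ∀ b, pf iᵀ (ψ b) (c :: x.2.2) =
        ∑ d, i d c * pf iᵀ (fun l => ψ b (d :: l)) x.2.2 := fun b => rfl
    simp only [h3, Finset.mul_sum]
    rw [Finset.sum_comm]
    refine Finset.sum_congr rfl fun b _ => Finset.sum_congr rfl fun d _ => ?_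
    by_cases e1 : i d c = 0
    · rw [e1]
      ring
    by_cases e2 : i b x.2.1 = 0
    · rw [e2]
      ring
    rw [hi d c e1, hi b x.2.1 e2]
    ring

/-- part two -/
lemma spj_two (o' : J → Bool) (o : M → Bool) (g : Matrix I J K) (i : Matrix J M K)
    (hi : ∀ b a, i b a ≠ 0 → o' b = o a) (u : List I) :
    ∀ w : List M, pf iᵀ (fun v => sp o' g u v) w = sp o (g * i) u w := by
  induction u with
  | nil =>
    intro w
    cases w with
    | nil => simp [pf, sp]
    | cons c w =>
      change ∑ b, i b c * pf iᵀ (fun l => sp o' g [] (b :: l)) w = 0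
      refine Finset.sum_eq_zero fun b _ => ?_
      have h : (fun l => sp o' g [] (b :: l)) = fun _ => (0 : K) := by
        funext l
        simp [sp]
      rw [h, pf_zero, mul_zero]
  | cons a u ih =>
    intro w
    have h1 : (fun v => sp o' g (a :: u) v) = fun v => ((sel K o' v).map fun x => x.1 *
        (fun b l => g a b * sp o' g u l) x.2.1 x.2.2).sum := by
      funext v
      simp only [sp]
      congr 1
      refine List.map_congr_left fun x _ => ?_
      ring
    rw [h1]
    refine (spj_sel o' o i hi w (fun b l => g a b * sp o' g u l)).trans ?_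
    simp only [sp]
    congr 1
    refine List.map_congr_left fun x _ => ?_
    rw [Matrix.mul_apply, Finset.mul_sum, mul_assoc, Finset.sum_mul, Finset.mul_sum]
    refine Finset.sum_congr rfl fun b _ => ?_
    have h2 : pf iᵀ (fun l => g a b * sp o' g u l) x.2.2 = g a b * sp o (g * i) u x.2.2 := by
      rw [← ih]
      exact pf_smul iᵀ (g a b) x.2.2 (fun l => sp o' g u l)
    rw [h2]
    ring

end

/-- SPJ: the symmetrizer and base change. -/
theorem pf_SPJ : T_SPJ := by
  intro K _ I J M _ _ _ _ _ _ n
  refine ⟨fun o j g => ?_, fun o' o g i hi => ?_⟩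
  · ext u w
    rw [Matrix.mul_apply]
    change ∑ v : List.Vector J n, (List.zipWith (fun a b => j a b) u.1 v.1).prod * sp o g v.1 w.1 =
      sp o (j * g) u.1 w.1
    rw [← spj_one o j g u.1 w.1]
    exact pf_vsum j n u.1 (fun v => sp o g v w.1) u.2
  · ext u w
    rw [Matrix.mul_apply]
    change ∑ v : List.Vector J n, sp o' g u.1 v.1 * (List.zipWith (fun a b => i a b) v.1 w.1).prod =
      sp o (g * i) u.1 w.1
    rw [← spj_two o' o g i hi u.1 w.1, ← pf_vsum iᵀ n w.1 (fun v => sp o' g u.1 v) w.2]
    refine Finset.sum_congr rfl fun v _ => ?_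
    rw [mul_comm]
    congr 2
    rw [List.zipWith_comm]
    rfl

end Pool.Agent.H60.KM
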