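import Pool.Agent.H2.KM.Targets

/-!
# Board kim_modules, row SYR
-/

set_option autoImplicit false

open Matrix Pool.Agent.H2.NL Pool.Agent.H2.KM Pool.Agent.H64.CC

namespace Pool.Agent.H60.KM

variable {K : Type} [Field K] {I J : Type}

/-- double selections -/
def DD (o : J → Bool) (v : List J) (φ : J → J → List J → K) : K :=
  ((sel K o v).map fun x =>
    ((sel K o x.2.2).map fun y => x.1 * (y.1 * φ x.2.1 y.2.1 y.2.2)).sum).sum

lemma dd_nil (o : J → Bool) (φ : J → J → List J → K) : DD o [] φ = 0 := by
  simp [DD, sel]

lemma dd_congr (o : J → Bool) (v : List J) (φ ψ : J → J → List J → K)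
    (h : ∀ a b r, φ a b r = ψ a b r) : DD o v φ = DD o v ψ := by
  have : φ = ψ := by
    funext a b r
    exact h a b r
  rw [this]

lemma dd_mul (o : J → Bool) (v : List J) (φ : J → J → List J → K) (k : K) :
    DD o v (fun a b r => k * φ a b r) = k * DD o v φ := by
  unfold DD
  rw [← List.sum_map_mul_left]
  congr 1
  refine List.map_congr_left fun x _ => ?_
  rw [← List.sum_map_mul_left]
  congr 1
  refine List.map_congr_left fun y _ => ?_
  ring

lemma dd_cons (o : J → Bool) (c : J) (v : List J) (φ : J → J → List J → K) :
    DD o (c :: v) φ = ((sel K o v).map fun y => y.1 * φ c y.2.1 y.2.2).sum +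
      (((sel K o v).map fun x => ks K (o c) (o x.2.1) * x.1 * φ x.2.1 c x.2.2).sum +
      DD o v fun a b r => ks K (o c) (o a) * ks K (o c) (o b) * φ a b (c :: r)) := by
  unfold DD
  rw [← List.sum_map_add]
  simp only [sel, List.map_cons, List.sum_cons, List.map_map]
  congr 1
  · congr 1
    refine List.map_congr_left fun y _ => ?_
    rw [one_mul]
  · congr 1
    refine List.map_congr_left fun x _ => ?_
    simp only [Function.comp_apply]
    rw [show sel K o (c :: x.2.2) = (1, c, x.2.2) :: (sel K o x.2.2).map fun y =>
      (ks K (o c) (o y.2.1) * y.1, y.2.1, c :: y.2.2) from rfl]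
    simp only [List.map_cons, List.sum_cons, List.map_map, one_mul]
    congr 1
    congr 1
    refine List.map_congr_left fun y _ => ?_
    simp only [Function.comp_apply]
    ring

/-- the exchange of the two selected letters -/
lemma dd_swap (o : J → Bool) (v : List J) : ∀ φ : J → J → List J → K,
    DD o v φ = DD o v fun a b r => ks K (o a) (o b) * φ b a r := by
  induction v with
  | nil => intro φ; rw [dd_nil, dd_nil]
  | cons c v ih =>
    intro φ
    rw [dd_cons, dd_cons, ih]
    have e1 : ((sel K o v).map fun y => y.1 * (ks K (o c) (o y.2.1) * φ y.2.1 c y.2.2)).sum =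
        ((sel K o v).map fun x => ks K (o c) (o x.2.1) * x.1 * φ x.2.1 c x.2.2).sum := by
      congr 1
      refine List.map_congr_left fun y _ => ?_
      ring
    have e2 : ((sel K o v).map fun x => ks K (o c) (o x.2.1) * x.1 *
        (ks K (o x.2.1) (o c) * φ c x.2.1 x.2.2)).sum =
        ((sel K o v).map fun y => y.1 * φ c y.2.1 y.2.2).sum := by
      congr 1
      refine List.map_congr_left fun y _ => ?_
      have h := ks_sq (K := K) (o c) (o y.2.1)
      rw [ks_comm (K := K) (o y.2.1) (o c)]
      calc _ = (ks K (o c) (o y.2.1) * ks K (o c) (o y.2.1)) * (y.1 * φ c y.2.1 y.2.2) := by ring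
        _ = _ := by rw [h, one_mul]
    rw [e1, e2, ← add_assoc, ← add_assoc, add_comm
      ((sel K o v).map fun x => ks K (o c) (o x.2.1) * x.1 * φ x.2.1 c x.2.2).sum]
    congr 1
    refine dd_congr o v _ _ fun a b r => ?_
    ring

lemma sp_two (o : J → Bool) (f : Matrix I J K) (a b : I) (l : List I) (v : List J) :
    sp o f (a :: b :: l) v = DD o v fun p q r => f a p * (f b q * sp o f l r) := by
  simp only [sp, DD]
  congr 1
  refine List.map_congr_left fun x _ => ?_
  rw [← List.sum_map_mul_left]
  congr 1
  refine List.map_congr_left fun y _ => ?_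
  ring

/-- SYR: `sp o f u v` is symmetric in `u`. -/
theorem pf_SYR : T_SYR := by
  intro K _ I J o o' f hf v j u
  rw [sw_eq]
  induction j generalizing u v with
  | zero =>
    match u with
    | [] => simp [sgx, ex]
    | [a] => simp [sgx, ex]
    | a :: b :: l =>
      change ks K (o' a) (o' b) * sp o f (b :: a :: l) v = sp o f (a :: b :: l) v
      rw [sp_two, sp_two, dd_swap, ← dd_mul]
      refine dd_congr o v _ _ fun p q r => ?_
      by_cases h1 : f a p = 0
      · rw [h1]
        ring
      by_cases h2 : f b q = 0
      · rw [h2]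
        ring
      rw [hf a p h1, hf b q h2]
      have h := ks_sq (K := K) (o p) (o q)
      calc _ = (ks K (o p) (o q) * ks K (o p) (o q)) * (f a p * (f b q * sp o f l r)) := by ring
        _ = _ := by rw [h, one_mul]
  | succ j ih =>
    match u with
    | [] => simp [sgx, ex]
    | a :: l =>
      change sgx K o' j l * sp o f (a :: ex j l) v = sp o f (a :: l) v
      simp only [sp]
      rw [← List.sum_map_mul_left]
      congr 1
      refine List.map_congr_left fun x _ => ?_
      rw [← ih x.2.2 l]
      ring

end Pool.Agent.H60.KM
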